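import Pool.Agent.Lib.MP_ab8df0_nt.T.L12
import Pool.Agent.Lib.MP_ab8df0_nt.T.B11a.Core
import Pool.Agent.Lib.MP_ab8df0_nt.T.B11b.Core
import Pool.Agent.Lib.MP_ab8df0_nt.T.B11c.Core
import Pool.Agent.Lib.MP_ab8df0_nt.P.L1

/-! The class of the fundamental unit for the first equation. -/

namespace Pool.Agent.Lib.MP_ab8df0_nt.T.B11

open Pool.Agent.Lib.MP_ab8df0_nt.B Pool.Agent.Lib.MP_ab8df0_nt.C Pool.Agent.Lib.MP_ab8df0_nt.P

theorem main {K : Type} [Field K] [NumberField K] {a : K} {pl : List (Place K)}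
    {ph : List (K →+* ℝ)}
    {w : List (IsDedekindDomain.HeightOneSpectrum (NumberField.RingOfIntegers K))}
    (hP : Pack K FDL1 a pl ph w) : BB11 := by
  intro x y z hx hyz h hf
  have hz := odd_z hyz h
  have r1 := B11b.relth hP
  have r2 := B11b.relrho hP
  have r3 := B11b.relsig hP
  have hs0 : cval a B11b.vs 50 ≠ 0 := fun q => by
    have e : cval a B11b.vs 51 = -1 / 2 := by
      rw [q] at r3
      linear_combination (-1 / 2) * r3
    rw [e] at r2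
    exact (by norm_num : (9 : K) ≠ 0) (by
      linear_combination (-(cval a B11b.vs 15 + 1) * 4) * r2 + (cval a B11b.vs 15 - 2) * r1)
  have hne : z ^ 3 ≠ 2 * y ^ 3 := fun q =>
    (Int.not_even_iff_odd.2 (hz.pow (n := 3))) (q ▸ even_two_mul _)
  obtain ⟨t, g, E, xi, htz, h1, hg, hq, hG, hE, hR, hxi, hev, hsg⟩ :=
    L12.lev1 ph 0 (th := cval a B11b.vs 15) (rho := cval a B11b.vs 51) (sig := cval a B11b.vs 50)
      (-1) 1 0 3 1 (by norm_num) (by norm_num) (by push_cast; linear_combination r1)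
      (by push_cast; linear_combination r2) hs0
      (by push_cast; linear_combination (cval a B11b.vs 15 * (cval a B11b.vs 15 - 1)) * r3)
      hx hyz hz hne h (by simpa [eps2] using hf)
  rw [← B11b.relr hP] at hR
  have s1 : IsSquare (1 + 3 * g ^ 2) := ⟨E, by rw [← hE, sq]⟩
  have s2 : IsSquare (1 + E) := ⟨xi, by rw [← hxi, sq]⟩
  by_contra hn
  simp only [not_or] at hn
  obtain ⟨n1, n2, n3, n4⟩ := hn
  refine B11a.core hP t g E xi hq hG hE s1 hR hxi s2 hev hsg (fun hs => ?_) fun hs => ?_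
  · have d0 : 1 * t - 1 ≠ 0 := by exact_mod_cast L12.ne_of htz 1 1 (by omega)
    have d1 : 237 * t - (-203) ≠ 0 := by exact_mod_cast L12.ne_of htz (-203) 237 (by omega)
    obtain ⟨Y, hY⟩ := L12.onD (dl := cval a B11b.vs 36) hg hE hxi hs (B11b.relD hP)
      (B11b.rela hP) (B11b.relb hP)
    obtain ⟨_, _, _, _, a1, a2, a3, a4, a5⟩ := L12.chain h1 hG hE hxi (B11b.relG0 hP)
      (B11b.relE0 hP) (B11b.relxi0 hP) (B11b.relx0 hP) d0
    obtain ⟨_, _, _, _, b1, b2, b3, b4, b5⟩ := L12.chain h1 hG hE hxi (B11b.relG1 hP)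
      (B11b.relE1 hP) (B11b.relxi1 hP) (B11b.relx1 hP) d1
    exact B11b.core hP t g E xi _ Y _ _ _ _ _ _ _ _ hq hG hE s1 hR hxi s2 hs rfl hY
      a1 a2 a3 a4 d0 a5 b1 b2 b3 b4 d1 b5
  · have d0 : 1 * t - (-1) ≠ 0 := by exact_mod_cast L12.ne_of htz (-1) 1 (by omega)
    have d1 : 37 * t - (-29) ≠ 0 := by exact_mod_cast L12.ne_of htz (-29) 37 (by omega)
    obtain ⟨Y, hY⟩ := L12.onD (dl := cval a B11c.vs 36) hg hE hxi hs (B11c.relD hP)
      (B11c.rela hP) (B11c.relb hP)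
    obtain ⟨_, _, _, _, a1, a2, a3, a4, a5⟩ := L12.chain (th := cval a B11c.vs 15) h1 hG hE hxi
      (B11c.relG0 hP) (B11c.relE0 hP) (B11c.relxi0 hP) (B11c.relx0 hP) d0
    obtain ⟨_, _, _, _, b1, b2, b3, b4, b5⟩ := L12.chain (th := cval a B11c.vs 15) h1 hG hE hxi
      (B11c.relG1 hP) (B11c.relE1 hP) (B11c.relxi1 hP) (B11c.relx1 hP) d1
    exact B11c.core hP t g E xi _ Y _ _ _ _ _ _ _ _ hq hG hE s1 hR hxi s2 hs rfl hY
      a1 a2 a3 a4 d0 a5 b1 b2 b3 b4 d1 b5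

theorem bb : BB11 := by
  obtain ⟨pl, ph, w, hP⟩ := P.L1.pack
  exact main hP

end Pool.Agent.Lib.MP_ab8df0_nt.T.B11
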